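import Mathlib

/-!
MP_c2f9c6_al (helper900): profinite groups with the maximum condition on closed subgroups.

THEOREM.  A profinite group G satisfies max on closed subgroups iff it has an open normal
subgroup N which is the internal direct product of finitely many closed subgroups P_p, normal in G,
P_p pro-p with max, for finitely many distinct primes p.

Every piece is a closed Prop S_X; a piece is a theorem t_X : S_A -> S_B -> S_X (hypotheses as listed in
the docstring / table h900_pieces).  The statements are universe polymorphic: write  universe u  and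
theorem t_X : S_A.{u} → S_X.{u}.  In all proofs G is profinite, U, V, W run over open normal subgroups,
bars are images in G/U; everything elementary.
-/

universe u

namespace Run7.h900.MX

/-- maximum condition on closed subgroups -/
def MaxClosed (G : Type u) [Group G] [TopologicalSpace G] : Prop :=
  ∀ F : Set (Subgroup G), F.Nonempty → (∀ H ∈ F, IsClosed (H : Set G)) →
    ∃ M ∈ F, ∀ H ∈ F, M ≤ H → H = M

/-- `P` (with its own topology) is pro-p: every quotient by an open normal subgroup is a p-group -/
def IsProP (p : ℕ) (P : Type u) [Group P] [TopologicalSpace P] : Prop :=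
  ∀ V : OpenNormalSubgroup P, IsPGroup p (P ⧸ V.toSubgroup)

/-- `G` is virtually a direct product of finitely many pro-p groups with max, for distinct primes -/
def Decomp (G : Type u) [Group G] [TopologicalSpace G] : Prop :=
  ∃ (N : Subgroup G) (s : Finset ℕ) (P : ℕ → Subgroup G),
    N.Normal ∧ IsOpen (N : Set G) ∧
    (∀ p ∈ s, p.Prime ∧ (P p).Normal ∧ IsClosed (P p : Set G) ∧ IsProP p (P p) ∧
      MaxClosed (P p)) ∧
    (∀ p ∈ s, ∀ q ∈ s, p ≠ q → ∀ x ∈ P p, ∀ y ∈ P q, x * y = y * x) ∧
    N = ⨆ p ∈ s, P p

/-- `N` is p-nilpotent with a p-complement normal in the whole group -/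
def PNil (p : ℕ) {Γ : Type u} [Group Γ] (N : Subgroup Γ) : Prop :=
  ∃ K : Subgroup Γ, K.Normal ∧ K ≤ N ∧ ¬ p ∣ Nat.card K ∧ ∀ x ∈ N, ∃ k : ℕ, x ^ p ^ k ∈ K

/-- the subgroup generated by the p-th powers and the commutators of elements of P -/
def Phi (p : ℕ) {Γ : Type u} [Group Γ] (P : Subgroup Γ) : Subgroup Γ :=
  Subgroup.closure {y | (∃ a ∈ P, y = a ^ p) ∨ ∃ a ∈ P, ∃ b ∈ P, y = a * b * a⁻¹ * b⁻¹}

/-- projection to the quotient by an open normal subgroup -/
def pr {G : Type u} [Group G] [TopologicalSpace G] (U : OpenNormalSubgroup G) :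
    G →* G ⧸ U.toSubgroup := QuotientGroup.mk' U.toSubgroup

/-- all elements of `H` are p-elements modulo every open normal subgroup -/
def ProP {G : Type u} [Group G] [TopologicalSpace G] (p : ℕ) (H : Subgroup G) : Prop :=
  ∀ U : OpenNormalSubgroup G, ∀ x ∈ H, ∃ k : ℕ, x ^ p ^ k ∈ U.toSubgroup

/-- `T` normalises `H` -/
def Nrm {G : Type u} [Group G] (T H : Subgroup G) : Prop :=
  ∀ t ∈ T, ∀ x ∈ H, t * x * t⁻¹ ∈ H

/-! ### finite groups -/

/-- PIECE TR (transfer), finite groups, no hypotheses.
Put Q = K ⊓ P, n = |K : Q| (prime to p), X = K/Q (cosets kQ).  P acts on X by h.(kQ) = (h k h⁻¹)Q, K acts by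
left multiplication.  Choose representatives r(x) in K of x in X.
(1) For h in P: r(h.x)⁻¹ * (h r(x) h⁻¹) lies in Q; put θ(h) = ∏_x ϕ(r(h.x)⁻¹ h r(x) h⁻¹) in A.  θ is a homomorphism
P → A:  r(ghx)⁻¹ gh r(x) h⁻¹g⁻¹ = [r(g(hx))⁻¹ g r(hx) g⁻¹] * g[r(hx)⁻¹ h r(x) h⁻¹]g⁻¹, use the P-invariance of ϕ and
reindex the first product by x ↦ hx.
(2) For k in K: V(k) = ∏_x ϕ(r(kx)⁻¹ k r(x)) is a homomorphism K → A (same computation, the classical transfer, see
also MonoidHom.transfer), hence V = 1 by hKA.
(3) For q in Q the two actions of q on X agree (q r(x) q⁻¹ Q = q r(x) Q) and r(qx)⁻¹ q r(x) q⁻¹ = (r(qx)⁻¹ q r(x)) q⁻¹, so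
θ(q) = V(q) ϕ(q)^(-n) = ϕ(q)^(-n).
(4) A has exponent p, p does not divide n: choose m with m n = -1 mod p, ψ = θ^m.
(Alternative to X: the cosets kP in Γ/P with k in K, Γ acts by left multiplication.) -/
def S_TR : Prop :=
  ∀ (Γ : Type u) [Group Γ] [Finite Γ] (p : ℕ), p.Prime →
  ∀ (A : Type u) [CommGroup A], (∀ a : A, a ^ p = 1) →
  ∀ (K P : Subgroup Γ), K.Normal → ¬ p ∣ (K ⊓ P).relIndex K →
    (∀ f : K →* A, ∀ x, f x = 1) →
  ∀ ϕ : (K ⊓ P : Subgroup Γ) →* A,
    (∀ h ∈ P, ∀ x y : (K ⊓ P : Subgroup Γ), (y : Γ) = h * x * h⁻¹ → ϕ y = ϕ x) →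
    ∃ ψ : P →* A, ∀ (x : P) (hx : (x : Γ) ∈ K ⊓ P), ψ x = ϕ ⟨x, hx⟩

/-- PIECE TATE, finite groups, from S_TR.
K := subgroup generated by the elements of N of order prime to p.  K is normal in Γ, K ≤ N, and for x in N some
x^(p^k) has order prime to p, so lies in K.  It remains to show that p does not divide |K|.  Let Q = K ⊓ P.  As K is
normal and P is a Sylow p-subgroup, |K : Q| = |KP : P| is prime to p, so it is enough to show Q = 1.  Suppose Q ≠ 1.
Q is normal in P.  Choose M < Q maximal among the subgroups of Γ contained properly in Q and normalised by P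
(finite).  Then the image of Q in P/M is a minimal normal subgroup of the p-group P/M, hence central of order p
(its intersection with the centre of the p-group P/M is nontrivial and normal): so [P,Q] ≤ M and x^p in M for x in
Q.  A := Q/M (commutative, exponent p), ϕ : Q → A is P-invariant.  Every homomorphism K → A is trivial, because
K is generated by elements of order prime to p and A has exponent p.  S_TR extends ϕ to ψ : P → A.  ψ kills
Phi p P (A is commutative of exponent p) which contains N ⊓ P ≥ Q.  So ϕ = 1 and M = Q, contradiction. -/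
def S_TATE : Prop :=
  ∀ (Γ : Type u) [Group Γ] [Finite Γ] (p : ℕ), p.Prime →
  ∀ (P N : Subgroup Γ), IsPGroup p P → ¬ p ∣ P.index → N.Normal → N ⊓ P ≤ Phi p P →
    PNil p N

/-- PIECE COP (coprime action of a soluble group), finite groups, no hypotheses.
Prove both (i) there is an A-invariant Sylow s-subgroup S of B and (ii) two A-invariant Sylow s-subgroups
S1, S2 of B are conjugate by an element c of B commuting with all elements of A, by induction on |A|.
A = 1: Sylow.  A ≠ 1: as A is soluble it has a normal subgroup A0 of prime index q (A/[A,A] is a nontrivial finite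
commutative group).  q divides |A| so q does not divide |B|.  (i) Let Ω be the set of A0-invariant Sylow s-subgroups
of B, nonempty by (i) for A0; C = C_B(A0) acts transitively on Ω by conjugation by (ii) for A0, so |Ω| divides |C|
and is prime to q.  A acts on Ω by conjugation and A0 acts trivially, so |Ω| = number of fixed points mod q (orbits
have size 1 or q, or IsPGroup.card_modEq_card_fixedPoints for A/A0), so there is a fixed point.  (ii) S2 = c S1 c⁻¹ for some
c in C.  The set Z = {c in C | c S1 c⁻¹ = S2} is a coset of N_C(S1), so |Z| divides |B| and is prime to q; A acts on Z by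
conjugation (C is A-invariant since A0 is normal in A), A0 acts trivially, so there is a fixed point c, it commutes
with A. -/
def S_COP : Prop :=
  ∀ (Γ : Type u) [Group Γ] [Finite Γ] (A B : Subgroup Γ), Group.IsSolvable A →
    (Nat.card A).Coprime (Nat.card B) → Nrm A B →
  ∀ s : ℕ, s.Prime → ∃ S : Subgroup Γ, S ≤ B ∧ IsPGroup s S ∧ ¬ s ∣ S.relIndex B ∧ Nrm A S

/-- PIECE NF, finite groups, no hypotheses.
For q in π let K_q be the q-complement from PNil q N.  If x in N is a p-element (p in π) and q ≠ p then x^(q^k) in K_q
for some k, and x is a power of x^(q^k), so x in K_q.  L_p := N ⊓ ⨅_(q in π, q ≠ p) K_q is a subgroup normal in Γ; its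
order is divisible by no prime except p (primes dividing card N lie in π), so it is a p-group, so
L_p = {x in N | x^(p^k) = 1 for some k}.  First claim.  Second: L_p and L_q are normal with trivial intersection. -/
def S_NF : Prop :=
  ∀ (Γ : Type u) [Group Γ] [Finite Γ] (N : Subgroup Γ), N.Normal →
  ∀ π : Finset ℕ, (∀ p ∈ π, p.Prime ∧ PNil p N) →
    (∀ q : ℕ, q.Prime → q ∣ Nat.card N → q ∈ π) →
    (∀ p ∈ π, ∀ x ∈ N, ∀ y ∈ N, (∃ k : ℕ, x ^ p ^ k = 1) → (∃ k : ℕ, y ^ p ^ k = 1) →
      ∃ k : ℕ, (x * y) ^ p ^ k = 1) ∧
    (∀ p ∈ π, ∀ q ∈ π, p ≠ q → ∀ x ∈ N, ∀ y ∈ N, (∃ k : ℕ, x ^ p ^ k = 1) →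
      (∃ k : ℕ, y ^ q ^ k = 1) → x * y = y * x)

/-- PIECE HF, finite groups, no hypotheses.
K_p (p in π) the p-complements, K = N ⊓ ⨅_(p in π) K_p, normal.  If x in K then orderOf x divides card K_p, not divisible
by p.  If x in N has order prime to p then x^(p^k) in K_p and x is a power of x^(p^k), so x in K_p.  Last claim: for x in N
take m = product of the p^(k_p) with x^(p^(k_p)) in K_p. -/
def S_HF : Prop :=
  ∀ (Γ : Type u) [Group Γ] [Finite Γ] (N : Subgroup Γ), N.Normal →
  ∀ π : Finset ℕ, (∀ p ∈ π, p.Prime ∧ PNil p N) →
    ∃ K : Subgroup Γ, K.Normal ∧ K ≤ N ∧ (∀ x ∈ N, (x ∈ K ↔ ∀ p ∈ π, ¬ p ∣ orderOf x)) ∧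
      ∀ x ∈ N, ∃ m : ℕ, m ≠ 0 ∧ (∀ q : ℕ, q.Prime → q ∣ m → q ∈ π) ∧ x ^ m ∈ K

/-! ### profinite groups -/

/-- the family used for Sylow subgroups: closed T-invariant subgroups of K of index prime to s modulo every U -/
def Fam {G : Type u} [Group G] [TopologicalSpace G] (T K : Subgroup G) (s : ℕ)
    (H : Subgroup G) : Prop :=
  IsClosed (H : Set G) ∧ H ≤ K ∧ Nrm T H ∧
    ∀ U : OpenNormalSubgroup G, ¬ s ∣ (H.map (pr U)).relIndex (K.map (pr U))

/-- PIECE CHAIN (Zorn), no hypotheses.
K itself is in Fam T K s.  Zorn (zorn_superset_nonempty or zorn_le_nonempty for the reversed order): let C be a nonempty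
chain in Fam and H∞ = sInf C: closed, ≤ K, T-invariant.  For U: among the finitely many subgroups H.map (pr U), H in C
(G/U is finite), there is a smallest one D = H0.map (pr U).  H∞.map (pr U) = D: for y in D the sets
H ∩ {g | pr U g = y}, H in C, H ≤ H0, are nonempty, compact and form a chain, so they have a common point
(IsCompact.nonempty_sInter_of_directed... ).  So the index condition for H∞ at U is the one for H0. -/
def S_CHAIN : Prop :=
  ∀ (G : Type u) [Group G] [TopologicalSpace G] [IsTopologicalGroup G] [CompactSpace G]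
    [T2Space G] [TotallyDisconnectedSpace G] (T K : Subgroup G),
    IsClosed (K : Set G) → Nrm T K → ∀ s : ℕ, s.Prime →
    ∃ H : Subgroup G, Fam T K s H ∧ ∀ H' : Subgroup G, Fam T K s H' → H' ≤ H → H' = H

/-- PIECE SYL (invariant Sylow subgroups of profinite groups), from S_COP and S_CHAIN.
Let H be a minimal element of Fam T K s.  Claim: for every U the finite group H.map (pr U) is an s-group (this gives
ProP s H, and H is the wanted S).  By S_COP in the finite group G/U (A = T.map (pr U), B = H.map (pr U); card B divides
card of K.map (pr U)) there is S' ≤ B an s-group with s not dividing S'.relIndex B, invariant under A.  Put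
H' = H ⊓ S'.comap (pr U): closed, T-invariant, ≤ H.  H' is in Fam: for an open normal W put W' = W ⊓ U.
The index of H'.map (pr W) in K.map (pr W) divides the one for W', and for W' it is
|K.map : H.map| * |H.map : H'.map|, where |H.map (pr W') : H'.map (pr W')| = |H : H'(H ⊓ W')| = |H : H'| (as H ⊓ W' ≤ H ⊓ U ≤ H')
= |B : S'| is prime to s.  By minimality H' = H, so B = H.map (pr U) ≤ S' is an s-group. -/
def S_SYL : Prop :=
  ∀ (G : Type u) [Group G] [TopologicalSpace G] [IsTopologicalGroup G] [CompactSpace G]
    [T2Space G] [TotallyDisconnectedSpace G] (T K : Subgroup G),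
    IsClosed (K : Set G) → Nrm T K →
    (∀ U : OpenNormalSubgroup G, Group.IsSolvable (T.map (pr U))) →
    (∀ U : OpenNormalSubgroup G,
      (Nat.card (T.map (pr U))).Coprime (Nat.card (K.map (pr U)))) →
    ∀ s : ℕ, s.Prime → ∃ S : Subgroup G, Fam T K s S ∧ ProP s S

/-- PIECE FRAT, no hypotheses.
Let Φ = (Phi p P).topologicalClosure, Φ ≤ P.  (1) Φ has finite index in P: the family of closed H with Φ ≤ H ≤ P and
Φ.relIndex H ≠ 0 contains Φ; let H be a maximal member.  If x in P, x not in H: every subgroup between Phi p P and P is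
normalised by P (it contains all commutators), so H' = H ⊔ zpowers x = union of the cosets x^i H, 0 ≤ i < p (x^p in H), is a
closed subgroup, Φ.relIndex H' = Φ.relIndex H * H.relIndex H' ≠ 0, contradiction.  So H = P.
(2) P \ Φ is a finite union of cosets of Φ, closed, does not contain 1; so some open normal N is disjoint
from it (ProfiniteGrp.exist_openNormalSubgroup_sub_open_nhds_of_one in Mathlib.Topology.Algebra.ClopenNhdofOne). -/
def S_FRAT : Prop :=
  ∀ (G : Type u) [Group G] [TopologicalSpace G] [IsTopologicalGroup G] [CompactSpace G]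
    [T2Space G] [TotallyDisconnectedSpace G], MaxClosed G →
    ∀ p : ℕ, p.Prime → ∀ P : Subgroup G, IsClosed (P : Set G) →
    ∃ N : OpenNormalSubgroup G, ∀ x : G, x ∈ N.toSubgroup → x ∈ P →
      x ∈ (Phi p P).topologicalClosure

/-- PIECE PN, from S_SYL, S_FRAT, S_TATE.
P := Sylow p-subgroup of G from S_SYL with T = ⊥, K = ⊤.  N from S_FRAT.  First let U ≤ N.  In G/U put P' = P.map (pr U): a
p-group of index prime to p.  N' = N.map (pr U).  If y in N' ⊓ P', y = pr U x with x in P; then x in N (U ≤ N), so x in
closure of Phi p P, and pr U x in (Phi p P).map (pr U) ≤ Phi p P' (the preimage of Phi p P' under pr U is open, so closed, and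
contains Phi p P).  S_TATE gives PNil p N'.  For general U use W = U ⊓ N: PNil passes to the image under the
surjection G/W → G/U (the image of the complement is a normal subgroup whose order divides card K). -/
def S_PN : Prop :=
  ∀ (G : Type u) [Group G] [TopologicalSpace G] [IsTopologicalGroup G] [CompactSpace G]
    [T2Space G] [TotallyDisconnectedSpace G], MaxClosed G →
    ∀ p : ℕ, p.Prime →
    ∃ N : OpenNormalSubgroup G, ∀ U : OpenNormalSubgroup G, PNil p (N.toSubgroup.map (pr U))

/-- PIECE HALL, from S_HF.
K := {x in N | for all U, p in π: p does not divide orderOf (pr U x)}.  For each U let K_U be the normal subgroup of G/U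
from S_HF for N.map (pr U); then K = N ⊓ ⨅_U K_U.comap (pr U): a closed normal subgroup.  Claim: K.map (pr U) = K_U (⊓ N.map).
For y in K_U: the sets C_W = {x in N | pr U x = y, pr W x in K_W} for W ≤ U are closed, decreasing in W, directed
(W1 ⊓ W2) and nonempty: take x0 in N with pr U x0 = y, let n = orderOf (pr W x0) = a b with a a π-number and b prime
to all p in π, e with e = 0 mod a and e = 1 mod b; then x = x0^e satisfies: order of pr W x divides b, and
pr U x = y^e = y as orderOf y divides b (it divides n and is prime to π).  By compactness there is x in all C_W, it lies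
in K (for arbitrary W use W ⊓ U; the order of pr W x divides the order of pr (W ⊓ U) x).
Card of K.map (pr U): if p in π divided it there would be an element of order p in it (Cauchy).  Last claim: S_HF. -/
def S_HALL : Prop :=
  ∀ (G : Type u) [Group G] [TopologicalSpace G] [IsTopologicalGroup G] [CompactSpace G]
    [T2Space G] [TotallyDisconnectedSpace G] (N : OpenNormalSubgroup G) (π : Finset ℕ),
    (∀ p ∈ π, p.Prime) →
    (∀ p ∈ π, ∀ U : OpenNormalSubgroup G, PNil p (N.toSubgroup.map (pr U))) →
    ∃ K : Subgroup G, K.Normal ∧ IsClosed (K : Set G) ∧ K ≤ N.toSubgroup ∧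
      (∀ U : OpenNormalSubgroup G, ∀ p ∈ π, ¬ p ∣ Nat.card (K.map (pr U))) ∧
      ∀ U : OpenNormalSubgroup G, ∀ x ∈ N.toSubgroup, ∃ m : ℕ, m ≠ 0 ∧
        (∀ q : ℕ, q.Prime → q ∣ m → q ∈ π) ∧ pr U (x ^ m) ∈ K.map (pr U)

/-- PIECE FIN (only finitely many primes), from S_PN, S_HALL, S_SYL.
Family: closed T such that T.map (pr U) is soluble for all U and for some finite set π of primes all primes dividing
card (T.map (pr U)), for all U, lie in π.  It contains ⊥.  Let T be maximal (MaxClosed), with π.  For p in π take N_p from
S_PN, N = intersection of the N_p, p in π (top if π is empty): PNil p (N.map (pr U)) for p in π (a subgroup of a p-nilpotent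
subgroup, normal: complement K ⊓ N.map).  K from S_HALL.  CLAIM: K.map (pr U) = ⊥ for all U.  Otherwise a prime s divides
card (K.map (pr U0)) for some U0, s not in π.  S_SYL applies (T normalises K as K is normal; coprime since the primes of T are in
π, those of K not): S closed, ≤ K, pro-s, T-invariant, s does not divide the index of S.map in K.map.  T' = T ⊔ S = T S is
closed (product of two compact sets), T'.map (pr U) = T.map S.map is soluble (S.map is a normal s-group in it, the quotient
is a quotient of T.map) and its order divides card T.map * card S.map.  So T' is in the family with π ∪ {s},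
T' = T by maximality, S ≤ T; then S.map (pr U0) is an s-group and its order has only primes in π: trivial, contradiction
with s dividing card (K.map (pr U0)) and not the index.  Hence by the last part of S_HALL every x in N has
x^m in U for a π-number m; a prime q dividing card (G/U) divides card (N.map (pr U)) (then q in π by Cauchy) or
the index of N in G.  So π ∪ primeFactors (N.index) works. -/
def S_FIN : Prop :=
  ∀ (G : Type u) [Group G] [TopologicalSpace G] [IsTopologicalGroup G] [CompactSpace G]
    [T2Space G] [TotallyDisconnectedSpace G], MaxClosed G →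
    ∃ π : Finset ℕ, (∀ p ∈ π, p.Prime) ∧ ∀ U : OpenNormalSubgroup G, ∀ q : ℕ, q.Prime →
      q ∣ Nat.card (G ⧸ U.toSubgroup) → q ∈ π

/-- PIECE STR (structure), from S_PN, S_FIN, S_SYL, S_NF.
π from S_FIN, N = intersection of the N_p (p in π) of S_PN; PNil p (N.map (pr U)) for all p in π and U.  For p in π put
P_p = {x in N | for all U there is k with x^(p^k) in U}.  By S_NF in G/U this is a subgroup (closed, normal in G); for p ≠ q
elements of P_p and P_q commute modulo every U, so commute (the intersection of all open normal subgroups is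
trivial).  Intrinsic IsProP p (P_p): an open normal V of P_p contains P_p ⊓ U for some U.  MaxClosed (P_p): closed subgroups of
P_p map to closed subgroups of G.  N = ⨆ P_p: D = ⨆_(p in π) P_p is closed (finite product of compact normal subgroups; or
by induction).  For each U and p in π: S_SYL with T = ⊥, K = N gives S ≤ P_p (ProP) with p not dividing the
index of S.map (pr U) in N.map (pr U); so p does not divide the index of D.map (pr U) in N.map (pr U); primes outside π
do not divide card (G/U).  So D.map (pr U) = N.map (pr U) for all U, and D closed gives D = N. -/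
def S_STR : Prop :=
  ∀ (G : Type u) [Group G] [TopologicalSpace G] [IsTopologicalGroup G] [CompactSpace G]
    [T2Space G] [TotallyDisconnectedSpace G], MaxClosed G → Decomp G

/-- PIECE CONV (converse), no hypotheses.
MaxClosed is equivalent to: every monotone sequence of closed subgroups is eventually constant.  For closed subgroups A ≤ B
let M(A,B): every monotone sequence of closed subgroups H_i with A ≤ H_i ≤ B is eventually constant.
(1) D normal closed, D ≤ B: M(⊥,D) and M(D,B) imply M(⊥,B): H_i ⊓ D and H_i D (closed, product of compact sets) are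
constant from some n on, then H_j = H_j ⊓ H_n D = H_n (H_j ⊓ D) = H_n for j ≥ n.
(2) D normal closed, P closed with M(⊥,P): M(D, D ⊔ P): H = D (H ⊓ P) for D ≤ H ≤ DP.
(3) N open: M(N, ⊤), because N.index is finite.
So by induction over the finite set s: M(⊥, ⨆_(p in t) P p) for all t ⊆ s (all P p are closed and normal, finite products are
closed normal), so M(⊥,N), and M(⊥,⊤) by (1) and (3).  (The pro-p and commuting hypotheses are not needed.) -/
def S_CONV : Prop :=
  ∀ (G : Type u) [Group G] [TopologicalSpace G] [IsTopologicalGroup G] [CompactSpace G]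
    [T2Space G] [TotallyDisconnectedSpace G], Decomp G → MaxClosed G

end Run7.h900.MX
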