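import Pool.Agent.Run7.h900.MX.Stm

/-! helper900: small tools for the pieces of MX (profinite groups with max). -/

universe u

open scoped Pointwise

namespace Run7.h900.MX

section tools

variable {G : Type u} [Group G] [TopologicalSpace G]

theorem ker_pr (U : OpenNormalSubgroup G) : (pr U).ker = U.toSubgroup := QuotientGroup.ker_mk' _

theorem pr_surj (U : OpenNormalSubgroup G) : Function.Surjective (pr U) :=
  QuotientGroup.mk'_surjective _

theorem pr_eq_one {U : OpenNormalSubgroup G} {x : G} : pr U x = 1 ↔ x ∈ U.toSubgroup := by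
  rw [← MonoidHom.mem_ker, ker_pr]

theorem pr_eq_iff {U : OpenNormalSubgroup G} {x y : G} :
    pr U x = pr U y ↔ x⁻¹ * y ∈ U.toSubgroup := by
  rw [← pr_eq_one, map_mul, map_inv, inv_mul_eq_one]

/-- `pr U x ∈ H.map (pr U)` iff `x ∈ H ⊔ U` -/
theorem pr_mem_map {U : OpenNormalSubgroup G} {H : Subgroup G} {x : G} :
    pr U x ∈ H.map (pr U) ↔ ∃ h ∈ H, h⁻¹ * x ∈ U.toSubgroup := by
  constructor
  · rintro ⟨h, hh, e⟩
    exact ⟨h, hh, pr_eq_iff.1 e⟩
  · rintro ⟨h, hh, e⟩
    exact ⟨h, hh, pr_eq_iff.2 e⟩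

theorem pr_mono {U V : OpenNormalSubgroup G} (h : U ≤ V) {x y : G} (e : pr U x = pr U y) :
    pr V x = pr V y := pr_eq_iff.2 (h (pr_eq_iff.1 e))

variable [IsTopologicalGroup G]

theorem isClosed_coset (U : OpenNormalSubgroup G) (y : G ⧸ U.toSubgroup) :
    IsClosed {g : G | pr U g = y} := by
  obtain ⟨a, rfl⟩ := pr_surj U y
  have h : {g : G | pr U g = pr U a} = (fun g => g⁻¹ * a) ⁻¹' (U.toSubgroup : Set G) := by
    ext g; exact pr_eq_iff
  rw [h]
  exact (U.toOpenSubgroup.isClosed).preimage (continuous_inv.mul continuous_const)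

theorem isOpen_coset (U : OpenNormalSubgroup G) (y : G ⧸ U.toSubgroup) :
    IsOpen {g : G | pr U g = y} := by
  obtain ⟨a, rfl⟩ := pr_surj U y
  have h : {g : G | pr U g = pr U a} = (fun g => g⁻¹ * a) ⁻¹' (U.toSubgroup : Set G) := by
    ext g; exact pr_eq_iff
  rw [h]
  exact (U.toOpenSubgroup.isOpen).preimage (continuous_inv.mul continuous_const)

theorem isOpen_comap_set (U : OpenNormalSubgroup G) (S : Set (G ⧸ U.toSubgroup)) :
    IsOpen {g : G | pr U g ∈ S} := by
  have h : {g : G | pr U g ∈ S} = ⋃ y ∈ S, {g : G | pr U g = y} := by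
    ext g; simp
  rw [h]
  exact isOpen_biUnion fun y _ => isOpen_coset U y

/-- every preimage of a set of the finite quotient is closed -/
theorem isClosed_comap_set (U : OpenNormalSubgroup G) (S : Set (G ⧸ U.toSubgroup)) :
    IsClosed {g : G | pr U g ∈ S} := by
  have h : {g : G | pr U g ∈ S}ᶜ = {g : G | pr U g ∈ Sᶜ} := rfl
  rw [← isOpen_compl_iff, h]
  exact isOpen_comap_set U _

theorem isClosed_comap (U : OpenNormalSubgroup G) (B : Subgroup (G ⧸ U.toSubgroup)) :
    IsClosed ((B.comap (pr U) : Subgroup G) : Set G) :=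
  isClosed_comap_set U (B : Set (G ⧸ U.toSubgroup))

/-- a closed coset-like set: `{x | x ^ n ∈ U}` is closed -/
theorem isClosed_pow (U : OpenNormalSubgroup G) (n : ℕ) :
    IsClosed {g : G | g ^ n ∈ U.toSubgroup} :=
  (U.toOpenSubgroup.isClosed).preimage (continuous_pow n)

variable [CompactSpace G]

instance finQ (U : OpenNormalSubgroup G) : Finite (G ⧸ U.toSubgroup) :=
  Subgroup.quotient_finite_of_isOpen U.toSubgroup U.toOpenSubgroup.isOpen

theorem index_ne_zero (U : OpenNormalSubgroup G) : U.toSubgroup.index ≠ 0 := by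
  have := finQ U
  exact Subgroup.index_ne_zero_of_finite

/-- product of closed subgroups, one normalising the other -/
theorem isClosed_sup [T2Space G] {T S : Subgroup G} (hT : IsClosed (T : Set G))
    (hS : IsClosed (S : Set G)) (h : Nrm T S) :
    ((T ⊔ S : Subgroup G) : Set G) = (T : Set G) * (S : Set G) ∧
      IsClosed ((T ⊔ S : Subgroup G) : Set G) := by
  have hle : T ≤ Subgroup.normalizer (S : Set G) := by
    intro t ht
    rw [Subgroup.mem_normalizer_iff]
    intro x
    constructor
    · intro hx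
      exact h t ht x hx
    · intro hx
      have := h t⁻¹ (T.inv_mem ht) _ hx
      simpa [mul_assoc] using this
  have e := Subgroup.coe_mul_of_left_le_normalizer_right T S hle
  refine ⟨e, ?_⟩
  rw [e]
  exact (hT.isCompact.mul hS.isCompact).isClosed

variable [TotallyDisconnectedSpace G]

/-- a closed set not containing 1 is disjoint from some open normal subgroup -/
theorem exists_disjoint {C : Set G} (hC : IsClosed C) (h1 : (1 : G) ∉ C) :
    ∃ U : OpenNormalSubgroup G, ∀ x ∈ U.toSubgroup, x ∉ C := by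
  obtain ⟨U, hU⟩ := ProfiniteGrp.exist_openNormalSubgroup_sub_open_nhds_of_one
    (U := Cᶜ) hC.isOpen_compl h1
  exact ⟨U, fun x hx => hU hx⟩

/-- closed subgroups are determined by their images in the finite quotients -/
theorem mem_of_closed {H : Subgroup G} (hH : IsClosed (H : Set G)) {x : G}
    (hx : ∀ U : OpenNormalSubgroup G, pr U x ∈ H.map (pr U)) : x ∈ H := by
  by_contra hn
  have hC : IsClosed {u : G | x * u⁻¹ ∈ H} :=
    hH.preimage (continuous_const.mul continuous_inv)
  obtain ⟨U, hU⟩ := exists_disjoint hC (by simpa using hn)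
  obtain ⟨h, hh, e⟩ := pr_mem_map.1 (hx U)
  refine hU _ e ?_
  change x * (h⁻¹ * x)⁻¹ ∈ H
  have : x * (h⁻¹ * x)⁻¹ = h := by group
  rw [this]; exact hh

theorem eq_one_of_forall {x : G} [T2Space G]
    (hx : ∀ U : OpenNormalSubgroup G, x ∈ U.toSubgroup) : x = 1 := by
  have hc : IsClosed ((⊥ : Subgroup G) : Set G) := by
    rw [Subgroup.coe_bot]; exact isClosed_singleton
  have := mem_of_closed (H := ⊥) hc (x := x) (fun U => by
    rw [pr_eq_one.2 (hx U)]; exact one_mem _)
  simpa using this

theorem le_of_map_le {H K : Subgroup G} (hH : IsClosed (H : Set G))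
    (h : ∀ U : OpenNormalSubgroup G, K.map (pr U) ≤ H.map (pr U)) : K ≤ H :=
  fun _ hx => mem_of_closed hH fun U => h U ⟨_, hx, rfl⟩

end tools

section maxclosed

/-- closed subgroups of a group with max have max -/
theorem maxClosed_sub {G : Type u} [Group G] [TopologicalSpace G] (h : MaxClosed G)
    {P : Subgroup G} (hP : IsClosed (P : Set G)) : MaxClosed P := by
  intro F hF hc
  obtain ⟨M, ⟨M', hM', rfl⟩, hmax⟩ := h ((fun H : Subgroup P => H.map P.subtype) '' F)
    (hF.image _) (by
      rintro _ ⟨H, hH, rfl⟩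
      have e : ((H.map P.subtype : Subgroup G) : Set G) = Subtype.val '' (H : Set P) := rfl
      rw [e]
      exact hP.isClosedEmbedding_subtypeVal.isClosedMap _ (hc H hH))
  refine ⟨M', hM', fun H hH hle => ?_⟩
  have := hmax _ ⟨H, hH, rfl⟩ (Subgroup.map_mono hle)
  exact Subgroup.map_injective P.subtype_injective this

end maxclosed

end Run7.h900.MX
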